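import Pool.Agent.MP_96f5a9_co.h16.IISpec2

/-!
Almost equal generators: the balance.
-/

set_option autoImplicit false

namespace Pool.Agent.MP_96f5a9_co.H16

open Finset H51 H59 H80 WA

namespace SumA

lemma sum_sq (m : ℕ) : ∑ l ∈ range m, (l : ℝ) ^ 2 ≤ (m : ℝ) ^ 3 / 3 := by
  induction m with
  | zero => simp
  | succ n ih =>
    have : (0 : ℝ) ≤ n := Nat.cast_nonneg n
    rw [sum_range_succ]
    push_cast
    nlinarith

lemma sum_lq {m s R : ℕ} {gb : ℝ} {q : ℕ → ℝ} (h : Ref m s R gb q) (hm : (0 : ℝ) < m) :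
    ∑ l ∈ range m, (l : ℝ) * q l ≤ 5 / 6 * (m : ℝ) ^ 2 := by
  have k : ∀ l ∈ range m, (l : ℝ) * q l ≤ m / 2 * q l + (l : ℝ) ^ 2 / m := by
    intro l hl
    have l1 : (l : ℝ) ≤ m := Nat.cast_le.2 (mem_range.1 hl).le
    have q0 : 0 ≤ q l := le_trans (by norm_num) (h.third l)
    have q2 : q l ≤ 2 := le_of_mul_le_mul_left (by linarith [h.up l, h.gbm]) h.pos
    have e : 2 * (l : ℝ) - m ≤ (l : ℝ) ^ 2 / m := by
      rw [le_div_iff₀ hm]
      nlinarith [sq_nonneg ((l : ℝ) - m)]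
    have e0 : 0 ≤ (l : ℝ) ^ 2 / m := by positivity
    rcases le_total (l : ℝ) (m / 2) with c | c
    · nlinarith
    · nlinarith
  have a := sum_le_sum k
  rw [sum_add_distrib, ← mul_sum, ← sum_div] at a
  have b : (∑ l ∈ range m, (l : ℝ) ^ 2) / m ≤ (m : ℝ) ^ 2 / 3 := by
    rw [div_le_iff₀ hm]
    nlinarith [sum_sq m]
  nlinarith [h.sum_le]

end SumA

open SumA

theorem sumS : NodeGStmt → NodeIStmt → ErrStmt → SumStmt := by
  intro nG nI er ι _ _ g γ T m F s R R0 t w gb ε N q Fr r qh err h hW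
  have G1 := fun y hy => (nG ι g γ T m F s R R0 t w gb ε N q Fr r qh err h y hy).1
  have I1 := nI ι g γ T m F s R R0 t w gb ε N q Fr r qh err h
  have E1 := er ι g γ T m F s R R0 t w gb ε N q Fr r qh err h
  generalize ff g γ (Nr g s R) (F + m) m (3 * R * t ^ 2) gb (9 * ε + 2 * R / m) Fr = f at G1 I1 ⊢
  have hm : (0 : ℝ) < m := Nat.cast_pos.2 h.md.pos
  have hg := h.ref.pos
  have hC : (0 : ℝ) < (Nr g s R).card := Nat.cast_pos.2 h.ne.card_pos
  have hε : 0 ≤ ε := (mul_nonneg_iff_of_pos_right hC).1 (h.eps ▸ Nat.cast_nonneg _)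
  have hM : ((F + m : ℕ) : ℝ) = F + m := Nat.cast_add _ _
  have hF : (0 : ℝ) ≤ F := Nat.cast_nonneg _
  have hR : (0 : ℝ) ≤ R := Nat.cast_nonneg _
  have hs : (0 : ℝ) < s - R := by
    have a : (m : ℝ) ≤ s := Nat.cast_le.2 h.ref.ms
    linarith [h.ref.Rm']
  have hN : 0 < N := (mul_pos_iff_of_pos_right hs).1 (by linarith [h.N1])
  have hp : (0 : ℝ) < Fintype.card ι := by linarith [h.N2]
  have n0 : 0 ≤ N / Fintype.card ι := by positivity
  have n1 : N / Fintype.card ι ≤ 1 / 64 := by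
    rw [div_le_iff₀ hp]
    linarith [h.N2]
  -- the identity
  have a1 := (ident (g := g) (M := F + m) (m := m) h.md.down f).symm.trans_le (not_wilf hW).1
  have a2 : ∑ z ∈ T, (aa g (F + m) m z + inc f z + ded T f z + slk g (F + m) m f z) =
      ∑ z ∈ T, (aa g (F + m) m z + inc f z) + ∑ z ∈ T, (ded T f z + slk g (F + m) m f z) := by
    rw [← sum_add_distrib]
    exact sum_congr rfl fun z _ => add_assoc _ _ _
  have a3 : (Gam g T (F + m) m (Nr g s R0) : ℝ) ≤
      2 * ∑ z ∈ T, (ded T f z + slk g (F + m) m f z) := by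
    rw [Gam, Nat.cast_sum, mul_sum]
    exact sum_le_sum G1
  have a4 := sum_le_sum I1
  rw [sum_sub_distrib, ← mul_sum, sum_ite,
    unif h.md fun l => (((F + m : ℕ) : ℝ) - (l : ℕ)) * r l] at a4
  have a5 : ∑ z ∈ T.filter (fun z => F + m - wt g z < m),
      err (((F + m - wt g z) % m + (s - 2 * R)) % m) ≤ ∑ j ∈ range m, err j := by
    refine (sum_le_sum_of_subset_of_nonneg (filter_subset _ _) fun z _ _ => h.err0 _).trans ?_
    rw [unif h.md fun l => err ((l + (s - 2 * R)) % m)]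
    have := sum_window (le_refl m) (s - 2 * R) (fun x => if x < m then err x else 0) (range m)
      (fun x => by split_ifs; exacts [h.err0 x, le_rfl]) fun x hx => if_neg (by simpa using hx)
    rwa [sum_congr rfl fun l _ => if_pos (Nat.mod_lt _ h.md.pos),
      sum_congr rfl fun l hl => if_pos (mem_range.1 hl)] at this
  -- the rates
  have b1 : -(2 ^ 12 * m * ε * R) ≤ gb * (∑ l ∈ range m, r l - ∑ l ∈ range m, q l) := by
    refine le_of_mul_le_mul_left ?_ hC
    have := h.rare.mean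
    rw [← h.eps] at this
    linarith
  have b2 : gb * m - m * w ≤ gb * ∑ l ∈ range m, q l := by
    have := mul_le_mul_of_nonneg_left h.q_sum hg.le
    rwa [show gb * (m * (1 - w / gb)) = gb * m - m * w by field_simp] at this
  have b3 : (F : ℝ) + m ≤ N * gb := by
    have := mul_le_mul_of_nonneg_left (show (s : ℝ) - R ≤ gb by linarith [h.ref.gb1]) hN.le
    linarith [h.N1]
  have b4 : ((F : ℝ) + m) * m - N * (m * (w + 2 ^ 12 * ε * R)) ≤
      (F + m) * ∑ l ∈ range m, r l := by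
    refine le_of_mul_le_mul_left ?_ hg
    have c0 : (0 : ℝ) ≤ m * (w + 2 ^ 12 * ε * R) := by positivity
    have c1 := mul_le_mul_of_nonneg_right b3 c0
    have c2 : gb * m - m * (w + 2 ^ 12 * ε * R) ≤ gb * ∑ l ∈ range m, r l := by linarith
    have c3 := mul_le_mul_of_nonneg_left c2 (show (0 : ℝ) ≤ F + m by linarith)
    linarith
  have b5 : ∑ l ∈ range m, (l : ℝ) * r l ≤ ∑ l ∈ range m, ((l : ℝ) * q l + 14 * ε * m) := by
    refine sum_le_sum fun l hl => ?_
    have l0 : (0 : ℝ) ≤ l := Nat.cast_nonneg _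
    have l1 : (l : ℝ) ≤ m := Nat.cast_le.2 (mem_range.1 hl).le
    have c1 : gb * (qh l - q l) ≤ gb * (14 * ε) := by
      refine le_of_mul_le_mul_left ?_ hC
      have c2 := h.rare.qh_le l (mem_range.1 hl)
      have c3 := mul_le_mul_of_nonneg_right h.ref.gbm (mul_nonneg hε hC.le)
      rw [← h.eps] at c2
      linarith
    have c2 := le_of_mul_le_mul_left c1 hg
    have c3 := h.rare.r_le l (mem_range.1 hl)
    have c4 := mul_le_mul_of_nonneg_left (show r l ≤ q l + 14 * ε by linarith) l0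
    have c5 := mul_le_mul_of_nonneg_left l1 hε
    linarith
  rw [sum_add_distrib, sum_const, card_range, nsmul_eq_mul] at b5
  have b6 := sum_lq h.ref hm
  have b7 : ∑ l ∈ range m, (((F + m : ℕ) : ℝ) - (l : ℕ)) * r l =
      (F + m) * ∑ l ∈ range m, r l - ∑ l ∈ range m, (l : ℝ) * r l := by
    rw [mul_sum, ← sum_sub_distrib, hM]
    exact sum_congr rfl fun l _ => sub_mul _ _ _
  rw [a2] at a1
  rw [b7] at a4
  generalize ∑ z ∈ T, (ded T f z + slk g (F + m) m f z) = G at a1 a3 ⊢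
  have g0 : 0 ≤ G := by linarith [Nat.cast_nonneg (α := ℝ) (Gam g T (F + m) m (Nr g s R0))]
  have d1 := mul_le_mul_of_nonneg_left a3 (mul_nonneg hm.le n0)
  have d2 := mul_le_mul_of_nonneg_left n1 (mul_nonneg hm.le g0)
  have d3 := mul_le_mul_of_nonneg_left a1 hm.le
  have d4 := mul_nonneg hm.le g0
  refine le_of_mul_le_mul_left ?_ hm
  rw [mul_add _ (_ + _), mul_add _ _ (_ / _), mul_div_cancel₀ _ hm.ne']
  linarith

end Pool.Agent.MP_96f5a9_co.H16
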